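import Mathlib

set_option autoImplicit false

/-!
# Starshapedness from clear visibility of the locally non-convex points

Let `E` be a compact connected subset of a finite-dimensional Euclidean space.  If a point `y` is in
the closed convex hull of `A_q` (the set of the points of `E` from which `q` is clearly visible) for
every locally non-convex point `q` of `E`, then `y` sees every point of `E`.

The proof: (1) a minimax argument (`mountain`) shows that a continuous function `a` on `E`, linear on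
segments, has no local maximum on `E` of value less than `a y`; (2) the ball argument of
Krasnosel'skii's theorem.
-/

namespace Pool.Agent.K3h12.LNC

open Set Metric Filter Topology

section top

variable {X : Type*} [MetricSpace X]

/-- The intersection of a decreasing sequence of compact preconnected sets is preconnected. -/
lemma preconn_iInter (K : ℕ → Set X) (hc : ∀ n, IsCompact (K n)) (hp : ∀ n, IsPreconnected (K n))
    (hm : Antitone K) : IsPreconnected (⋂ n, K n) := by
  rw [isPreconnected_closed_iff]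
  intro t t' ht ht' hsub h1 h2
  by_contra hne
  have hS : IsCompact (⋂ n, K n) :=
    (hc 0).of_isClosed_subset (isClosed_iInter fun n => (hc n).isClosed) (iInter_subset _ 0)
  have hA : IsCompact ((⋂ n, K n) ∩ t) := hS.inter_right ht
  have hB : IsCompact ((⋂ n, K n) ∩ t') := hS.inter_right ht'
  have hdis : Disjoint ((⋂ n, K n) ∩ t) ((⋂ n, K n) ∩ t') := by
    rw [Set.disjoint_left]
    rintro x ⟨hx, hxt⟩ ⟨_, hxt'⟩
    exact hne ⟨x, hx, hxt, hxt'⟩
  obtain ⟨U, V, hU, hV, hAU, hBV, hUV⟩ := SeparatedNhds.of_isCompact_isCompact hA hB hdis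
  obtain ⟨n, hn⟩ : ∃ n, K n ⊆ U ∪ V := by
    apply exists_subset_nhds_of_isCompact' (V := K) hm.directed_ge hc (fun n => (hc n).isClosed)
    intro x hx
    apply (hU.union hV).mem_nhds
    rcases hsub hx with h | h
    · exact Or.inl (hAU ⟨hx, h⟩)
    · exact Or.inr (hBV ⟨hx, h⟩)
  obtain ⟨x1, hx1, hx1t⟩ := h1
  obtain ⟨x2, hx2, hx2t⟩ := h2
  obtain ⟨x, _, hxU, hxV⟩ := hp n U V hU hV hn
    ⟨x1, mem_iInter.1 hx1 n, hAU ⟨hx1, hx1t⟩⟩ ⟨x2, mem_iInter.1 hx2 n, hBV ⟨hx2, hx2t⟩⟩
  exact Set.disjoint_left.1 hUV hxU hxV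

/-- A locally constant property holds everywhere on a preconnected set. -/
lemma preconn_all {C : Set X} (hC : IsPreconnected C) (P : X → Prop)
    (h1 : ∀ x ∈ C, P x → ∃ r > 0, ∀ y ∈ C, dist y x < r → P y)
    (h2 : ∀ x ∈ C, ¬ P x → ∃ r > 0, ∀ y ∈ C, dist y x < r → ¬ P y)
    {x : X} (hx : x ∈ C) (hPx : P x) : ∀ y ∈ C, P y := by
  intro y hy
  by_contra hPy
  choose! r hr hr' using h1
  choose! ρ hρ hρ' using h2
  obtain ⟨z, hz, hzU, hzV⟩ := hC (⋃ x ∈ {x | x ∈ C ∧ P x}, ball x (r x))
    (⋃ x ∈ {x | x ∈ C ∧ ¬ P x}, ball x (ρ x))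
    (isOpen_biUnion fun _ _ => isOpen_ball) (isOpen_biUnion fun _ _ => isOpen_ball)
    (by
      intro z hz
      by_cases h : P z
      · left
        exact mem_biUnion (show z ∈ {x | x ∈ C ∧ P x} from ⟨hz, h⟩) (mem_ball_self (hr z hz h))
      · right
        exact mem_biUnion (show z ∈ {x | x ∈ C ∧ ¬ P x} from ⟨hz, h⟩)
          (mem_ball_self (hρ z hz h)))
    ⟨x, hx, mem_biUnion (show x ∈ {x | x ∈ C ∧ P x} from ⟨hx, hPx⟩) (mem_ball_self (hr x hx hPx))⟩
    ⟨y, hy, mem_biUnion (show y ∈ {x | x ∈ C ∧ ¬ P x} from ⟨hy, hPy⟩)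
      (mem_ball_self (hρ y hy hPy))⟩
  simp only [mem_iUnion, Set.mem_ofPred_eq] at hzU hzV
  obtain ⟨u, ⟨hu, hPu⟩, hzu⟩ := hzU
  obtain ⟨w, ⟨hw, hPw⟩, hzw⟩ := hzV
  exact hρ' w hw hPw z hz hzw (hr' u hu hPu z hz hzu)

lemma closed_component {F : Set X} (hF : IsClosed F) (x : X) :
    IsClosed (connectedComponentIn F x) := by
  by_cases hx : x ∈ F
  · apply isClosed_of_closure_subset
    apply IsPreconnected.subset_connectedComponentIn
      (isPreconnected_connectedComponentIn.closure)
    · exact subset_closure (mem_connectedComponentIn hx)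
    · exact closure_minimal (connectedComponentIn_subset F x) hF
  · rw [connectedComponentIn_eq_empty hx]
    exact isClosed_empty

/-- Minimax argument: no local maximum of `a` of value less than `β`. -/
theorem mountain (E : Set X) (hE : IsCompact E) (hconn : IsPreconnected E) (a : X → ℝ)
    (ha : Continuous a) (β : ℝ)
    (hloc : ∀ x ∈ E, ∀ μ < β, μ ≤ a x → ∃ r > 0,
      (∀ u ∈ E, dist u x < r → ∀ v ∈ E, dist v x < r → μ < a u → μ < a v →
        ∃ K ⊆ E, IsCompact K ∧ IsPreconnected K ∧ u ∈ K ∧ v ∈ K ∧ ∀ k ∈ K, μ < a k) ∧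
      ((∃ v ∈ E, dist v x < r ∧ μ < a v) → ∀ u ∈ E, dist u x < r → μ ≤ a u →
        ∀ ε > 0, ∃ w ∈ E, dist w u < ε ∧ μ < a w))
    (s v : X) (hs : s ∈ E) (hv : v ∈ E) (hvβ : β ≤ a v)
    (hmax : ∃ ρ > 0, ∀ u ∈ E, dist u s < ρ → a u ≤ a s) : β ≤ a s := by
  by_contra hlt
  push Not at hlt
  set α := a s with hα
  have hcl : ∀ μ : ℝ, IsClosed (E ∩ {x | μ ≤ a x}) := fun μ =>
    hE.isClosed.inter (isClosed_le continuous_const ha)
  set Λ : Set ℝ := {μ | μ ≤ α ∧ v ∈ connectedComponentIn (E ∩ {x | μ ≤ a x}) s} with hΛ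
  have hbdd : BddAbove Λ := ⟨α, fun μ h => h.1⟩
  have hne : Λ.Nonempty := by
    obtain ⟨x0, hx0, hmin⟩ := hE.exists_isMinOn ⟨s, hs⟩ ha.continuousOn
    refine ⟨a x0, hmin hs, ?_⟩
    have : E ∩ {x | a x0 ≤ a x} = E := inter_eq_left.2 fun x hx => hmin hx
    rw [this]
    exact hconn.subset_connectedComponentIn hs Subset.rfl hv
  set μs := sSup Λ with hμs
  have hμα : μs ≤ α := csSup_le hne fun μ h => h.1
  have hμβ : μs < β := lt_of_le_of_lt hμα hlt
  -- the supremum is attained
  have hvC : v ∈ connectedComponentIn (E ∩ {x | μs ≤ a x}) s := by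
    obtain ⟨m, hmono, htend, hmem⟩ := exists_seq_tendsto_sSup hne hbdd
    have hanti : Antitone fun n => connectedComponentIn (E ∩ {x | m n ≤ a x}) s := by
      intro i j hij
      apply connectedComponentIn_mono
      exact inter_subset_inter_right _ fun x hx => (hmono hij).trans hx
    have hpre := preconn_iInter (fun n => connectedComponentIn (E ∩ {x | m n ≤ a x}) s)
      (fun n => hE.of_isClosed_subset (closed_component (hcl _) s)
        ((connectedComponentIn_subset _ _).trans inter_subset_left))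
      (fun n => isPreconnected_connectedComponentIn) hanti
    have hsmem : ∀ n, s ∈ connectedComponentIn (E ∩ {x | m n ≤ a x}) s := fun n =>
      mem_connectedComponentIn ⟨hs, (hmem n).1⟩
    refine hpre.subset_connectedComponentIn (mem_iInter.2 hsmem) ?_
      (mem_iInter.2 fun n => (hmem n).2)
    intro x hx
    rw [mem_iInter] at hx
    refine ⟨(connectedComponentIn_subset _ _ (hx 0)).1, ?_⟩
    exact le_of_tendsto htend (Eventually.of_forall fun n =>
      (connectedComponentIn_subset _ _ (hx n)).2)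
  set C := connectedComponentIn (E ∩ {x | μs ≤ a x}) s with hC
  have hCpre : IsPreconnected C := isPreconnected_connectedComponentIn
  have hsC : s ∈ C := mem_connectedComponentIn ⟨hs, hμα⟩
  have hCE : ∀ x ∈ C, x ∈ E ∧ μs ≤ a x := by
    intro x hx
    have h := (connectedComponentIn_subset (E ∩ {x | μs ≤ a x}) s) hx
    exact ⟨h.1, h.2⟩
  -- every point of `C` is a limit of points of `E` above the level
  have hN : ∀ x ∈ C, ∀ ε > 0, ∃ w ∈ E, dist w x < ε ∧ μs < a w := by
    refine preconn_all hCpre (fun x => ∀ ε > 0, ∃ w ∈ E, dist w x < ε ∧ μs < a w) ?_ ?_ hvC ?_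
    · intro x hx hP
      obtain ⟨r, hr, -, h2⟩ := hloc x (hCE x hx).1 μs hμβ (hCE x hx).2
      refine ⟨r, hr, fun y hy hyx => ?_⟩
      exact h2 (hP r hr) y (hCE y hy).1 hyx (hCE y hy).2
    · intro x hx hP
      push Not at hP
      obtain ⟨ε, hε, h⟩ := hP
      refine ⟨ε / 2, by positivity, fun y hy hyx hPy => ?_⟩
      obtain ⟨w, hw, hwy, haw⟩ := hPy (ε / 2) (by positivity)
      have h3 : dist w x < ε := by
        calc dist w x ≤ dist w y + dist y x := dist_triangle _ _ _
          _ < ε := by linarith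
      exact absurd haw (not_lt.2 (h w hw h3))
    · intro ε hε
      exact ⟨v, hv, by simpa using hε, lt_of_lt_of_le hμβ hvβ⟩
  have hμα' : μs < α := by
    obtain ⟨ρ, hρ, hmax⟩ := hmax
    obtain ⟨w, hw, hws, haw⟩ := hN s hsC ρ hρ
    exact lt_of_lt_of_le haw (hmax w hw hws)
  -- the relation
  let R : X → X → Prop := fun u w =>
    ∃ K ⊆ E, IsCompact K ∧ IsPreconnected K ∧ u ∈ K ∧ w ∈ K ∧ ∀ k ∈ K, μs < a k
  have Rtrans : ∀ u w z, R u w → R w z → R u z := by
    rintro u w z ⟨K, hKE, hKc, hKp, hu, hw, hK⟩ ⟨K', hKE', hKc', hKp', hw', hz, hK'⟩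
    exact ⟨K ∪ K', union_subset hKE hKE', hKc.union hKc', hKp.union w hw hw' hKp',
      Or.inl hu, Or.inr hz, fun k hk => hk.elim (hK k) (hK' k)⟩
  have hP : ∀ x ∈ C, ∃ ε > 0, ∀ u ∈ E, dist u x < ε → μs < a u → R u s := by
    refine preconn_all hCpre (fun x => ∃ ε > 0, ∀ u ∈ E, dist u x < ε → μs < a u → R u s)
      ?_ ?_ hsC ?_
    · rintro x hx ⟨ε, hε, h⟩
      refine ⟨ε / 2, by positivity, fun y hy hyx => ⟨ε / 2, by positivity, fun u hu huy hau => ?_⟩⟩
      apply h u hu _ hau
      calc dist u x ≤ dist u y + dist y x := dist_triangle _ _ _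
        _ < ε := by linarith
    · intro x hx hnot
      push Not at hnot
      obtain ⟨r, hr, h1, -⟩ := hloc x (hCE x hx).1 μs hμβ (hCE x hx).2
      obtain ⟨u0, hu0, hu0x, hau0, hnR⟩ := hnot r hr
      refine ⟨r, hr, fun y hy hyx hPy => ?_⟩
      obtain ⟨ε, hε, h⟩ := hPy
      obtain ⟨w, hw, hwy, haw⟩ := hN y hy (min ε (r - dist y x)) (lt_min hε (by linarith))
      have h3 : dist w x < r := by
        have := lt_of_lt_of_le hwy (min_le_right _ _)
        calc dist w x ≤ dist w y + dist y x := dist_triangle _ _ _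
          _ < r := by linarith
      exact hnR (Rtrans _ _ _ (h1 u0 hu0 hu0x w hw h3 hau0 haw)
        (h w hw (lt_of_lt_of_le hwy (min_le_left _ _)) haw))
    · obtain ⟨r, hr, h1, -⟩ := hloc s hs μs hμβ hμα
      exact ⟨r, hr, fun u hu hus hau => h1 u hu hus s hs (by simpa using hr) hau hμα'⟩
  obtain ⟨ε, hε, h⟩ := hP v hvC
  obtain ⟨K, hKE, hKc, hKp, hvK, hsK, hK⟩ := h v hv (by simpa using hε) (lt_of_lt_of_le hμβ hvβ)
  obtain ⟨k0, hk0, hkmin⟩ := hKc.exists_isMinOn ⟨s, hsK⟩ ha.continuousOn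
  have hmem : min (a k0) α ∈ Λ := by
    refine ⟨min_le_right _ _, ?_⟩
    refine hKp.subset_connectedComponentIn hsK ?_ hvK
    intro k hk
    refine ⟨hKE hk, ?_⟩
    show min (a k0) α ≤ a k
    exact (min_le_left _ _).trans (hkmin hk)
  have h4 := le_csSup hbdd hmem
  have h5 : μs < min (a k0) α := lt_min (hK k0 hk0) hμα'
  exact absurd h4 (not_le.2 h5)

end top

section geom

variable {V : Type*} [NormedAddCommGroup V] [InnerProductSpace ℝ V]

/-- `q` is clearly visible from `z`, in `E`. -/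
def Clear (E : Set V) (q z : V) : Prop := ∃ r > 0, ∀ u ∈ E, dist u q < r → segment ℝ z u ⊆ E

/-- A closed half-space which contains a set contains its closed convex hull. -/
lemma exists_above {A : Set V} {y : V} (hy : y ∈ closure (convexHull ℝ A)) (n : V) (γ : ℝ)
    (h : γ < inner ℝ n y) : ∃ z ∈ A, γ < inner ℝ n z := by
  by_contra hcon
  push Not at hcon
  have hclosed : IsClosed {z : V | inner ℝ n z ≤ γ} :=
    isClosed_le (by fun_prop) continuous_const
  have hconv : Convex ℝ {z : V | inner ℝ n z ≤ γ} := by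
    have := convex_halfSpace_le (𝕜 := ℝ) (f := fun z : V => inner ℝ n z)
      ⟨fun x y => inner_add_right _ _ _, fun c x => by simp [inner_smul_right]⟩ γ
    exact this
  have h1 : closure (convexHull ℝ A) ⊆ {z : V | inner ℝ n z ≤ γ} :=
    closure_minimal (convexHull_min (fun z hz => hcon z hz) hconv) hclosed
  exact absurd (h1 hy) (not_le.2 h)

lemma seg_mem {x y : V} {t : ℝ} (h0 : 0 ≤ t) (h1 : t ≤ 1) : x + t • (y - x) ∈ segment ℝ x y := by
  rw [segment_eq_image']
  exact ⟨t, ⟨h0, h1⟩, rfl⟩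

/-- points of a segment slightly above its lower end -/
lemma above_near (n : V) {u w : V} {μ : ℝ} (hu : μ ≤ inner ℝ n u) (hw : μ < inner ℝ n w)
    {ε : ℝ} (hε : 0 < ε) :
    ∃ p ∈ segment ℝ u w, dist p u < ε ∧ μ < inner ℝ n p := by
  set t : ℝ := min 1 (ε / (2 * (‖w - u‖ + 1))) with ht
  have hpos : 0 < ‖w - u‖ + 1 := by positivity
  have ht0 : 0 < t := lt_min one_pos (by positivity)
  have ht1 : t ≤ 1 := min_le_left _ _
  refine ⟨u + t • (w - u), seg_mem ht0.le ht1, ?_, ?_⟩
  · rw [dist_eq_norm, add_sub_cancel_left, norm_smul, Real.norm_of_nonneg ht0.le]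
    have h2 : t ≤ ε / (2 * (‖w - u‖ + 1)) := min_le_right _ _
    have h3 : t * (2 * (‖w - u‖ + 1)) ≤ ε := by
      rwa [le_div_iff₀ (by positivity)] at h2
    nlinarith [norm_nonneg (w - u)]
  · rw [inner_add_right, inner_smul_right, inner_sub_right]
    nlinarith

lemma seg_above (n : V) {u w : V} {μ : ℝ} (hu : μ < inner ℝ n u) (hw : μ < inner ℝ n w) :
    ∀ p ∈ segment ℝ u w, μ < inner ℝ n p := by
  intro p hp
  rw [segment_eq_image'] at hp
  obtain ⟨t, ⟨h0, h1⟩, rfl⟩ := hp
  simp only
  rw [inner_add_right, inner_smul_right, inner_sub_right]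
  rcases eq_or_lt_of_le h0 with h | h
  · rw [← h]; simpa using hu
  · nlinarith

lemma seg_compact (u w : V) : IsCompact (segment ℝ u w) := by
  rw [segment_eq_image']
  exact isCompact_Icc.image (by fun_prop)

/-- From a point at distance exactly `ε` from the centre of a ball, a segment which goes into the
open half-space of the centre enters the open ball. -/
lemma enter_ball {x c u : V} (h : 0 < inner ℝ (c - x) (u - x)) :
    ∃ p ∈ segment ℝ x u, dist p c < dist x c := by
  set A := inner ℝ (c - x) (u - x) with hA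
  set t : ℝ := min 1 (A / (‖u - x‖ ^ 2 + 1)) with ht
  have ht0 : 0 < t := lt_min one_pos (by positivity)
  have ht1 : t ≤ 1 := min_le_left _ _
  refine ⟨x + t • (u - x), seg_mem ht0.le ht1, ?_⟩
  have h2 : t * (‖u - x‖ ^ 2 + 1) ≤ A := by
    have : t ≤ A / (‖u - x‖ ^ 2 + 1) := min_le_right _ _
    rwa [le_div_iff₀ (by positivity)] at this
  have h3 : ‖x + t • (u - x) - c‖ ^ 2 = ‖x - c‖ ^ 2 - 2 * t * A + t ^ 2 * ‖u - x‖ ^ 2 := by
    have e : x + t • (u - x) - c = t • (u - x) - (c - x) := by abel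
    rw [e, @norm_sub_sq ℝ, inner_smul_left, norm_smul, real_inner_comm (c - x) (u - x), ← hA,
      norm_sub_rev x c, Real.norm_of_nonneg ht0.le]
    simp
    ring
  rw [dist_eq_norm, dist_eq_norm]
  apply lt_of_pow_lt_pow_left₀ 2 (norm_nonneg _)
  rw [h3]
  nlinarith [sq_nonneg ‖u - x‖, mul_pos ht0 ht0]

/-- The kernel theorem. -/
theorem kernel (E : Set V) (hE : IsCompact E) (hconn : IsPreconnected E) (y : V)
    (hy : y ∈ closure (convexHull ℝ E))
    (hq : ∀ x ∈ E, (∃ r > 0, Convex ℝ (ball x r ∩ E)) ∨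
      y ∈ closure (convexHull ℝ {z | z ∈ E ∧ Clear E x z})) :
    ∀ z0 ∈ E, segment ℝ z0 y ⊆ E := by
  intro z0 hz0 p hp
  by_contra hpE
  have hEne : E.Nonempty := ⟨z0, hz0⟩
  -- the parameter of `p`
  obtain ⟨θ, ⟨hθ0, hθ1⟩, hθ⟩ : ∃ θ ∈ Icc (0 : ℝ) 1, z0 + θ • (y - z0) = p := by
    rw [segment_eq_image'] at hp
    exact hp
  have hθpos : 0 < θ := by
    rcases eq_or_lt_of_le hθ0 with h | h
    · exfalso
      apply hpE
      rw [← hθ, ← h]
      simpa using hz0
    · exact h
  have hδ : 0 < infDist p E := (hE.isClosed.notMem_iff_infDist_pos hEne).1 hpE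
  set ε := infDist p E / 2 with hε
  have hε0 : 0 < ε := by positivity
  set w := z0 - p with hw
  -- first contact
  let f : ℝ → ℝ := fun t => infDist (p + t • w) E
  have hf : Continuous f := (continuous_infDist_pt E).comp (by fun_prop)
  set T : Set ℝ := Icc 0 1 ∩ {t | f t ≤ ε} with hT
  have hTc : IsCompact T := isCompact_Icc.inter_right (isClosed_le hf continuous_const)
  have hTne : T.Nonempty := by
    refine ⟨1, ⟨zero_le_one, le_rfl⟩, ?_⟩
    show infDist (p + (1 : ℝ) • w) E ≤ ε
    rw [one_smul, hw, add_sub_cancel, infDist_zero_of_mem hz0]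
    exact hε0.le
  obtain ⟨t1, ht1T, ht1min⟩ := hTc.exists_isLeast hTne
  have hf0 : ε < f 0 := by
    show ε < infDist (p + (0 : ℝ) • w) E
    rw [zero_smul, add_zero]
    linarith
  have ht1le : f t1 ≤ ε := ht1T.2
  have ht1pos : 0 < t1 := by
    rcases eq_or_lt_of_le ht1T.1.1 with h | h
    · rw [← h] at ht1le
      linarith
    · exact h
  have hbefore : ∀ t, 0 ≤ t → t < t1 → ε < f t := by
    intro t h0 h1
    by_contra hcon
    push Not at hcon
    have : t ∈ T := ⟨⟨h0, h1.le.trans ht1T.1.2⟩, hcon⟩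
    exact absurd (ht1min this) (not_le.2 h1)
  have hft1 : f t1 = ε := by
    apply le_antisymm ht1le
    apply ge_of_tendsto (hf.continuousAt.tendsto.mono_left (nhdsWithin_le_nhds (s := Iio t1)))
    filter_upwards [Ioo_mem_nhdsLT ht1pos] with t ht
    exact (hbefore t ht.1.le ht.2).le
  set c := p + t1 • w with hc
  obtain ⟨x, hx, hxc⟩ := hE.exists_infDist_eq_dist hEne c
  have hxc' : dist x c = ε := by
    rw [dist_comm, ← hxc]
    exact hft1
  have hfar : ∀ u ∈ E, ε ≤ dist u c := by
    intro u hu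
    rw [dist_comm]
    calc ε = infDist c E := hft1.symm
      _ ≤ dist c u := infDist_le_dist_of_mem hu
  set n := c - x with hn
  have hnε : ‖n‖ = ε := by
    rw [hn, ← dist_eq_norm, dist_comm]
    exact hxc'
  -- the ball does not move into the half space of `x`
  have hnw : inner ℝ n w ≤ 0 := by
    by_contra hcon
    push Not at hcon
    set h : ℝ := min t1 (inner ℝ n w / (‖w‖ ^ 2 + 1)) with hh
    have hh0 : 0 < h := lt_min ht1pos (by positivity)
    have hh1 : h ≤ t1 := min_le_left _ _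
    have hh2 : h * (‖w‖ ^ 2 + 1) ≤ inner ℝ n w := by
      have : h ≤ inner ℝ n w / (‖w‖ ^ 2 + 1) := min_le_right _ _
      rwa [le_div_iff₀ (by positivity)] at this
    have h3 : ε < f (t1 - h) := hbefore _ (by linarith) (by linarith)
    have h4 : f (t1 - h) ≤ ‖n - h • w‖ := by
      have e : p + (t1 - h) • w - x = n - h • w := by
        rw [hn, hc, sub_smul]
        abel
      rw [← e, ← dist_eq_norm]
      exact infDist_le_dist_of_mem hx
    have h5 : ‖n - h • w‖ ^ 2 = ε ^ 2 - 2 * h * inner ℝ n w + h ^ 2 * ‖w‖ ^ 2 := by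
      rw [@norm_sub_sq ℝ, inner_smul_right, norm_smul, hnε, Real.norm_of_nonneg hh0.le]
      simp
      ring
    have h6 : ε ^ 2 < ‖n - h • w‖ ^ 2 := by
      have : ε < ‖n - h • w‖ := h3.trans_le h4
      nlinarith
    nlinarith [sq_nonneg ‖w‖, mul_pos hh0 hh0]
  -- `y` is above `x`
  have hyx : inner ℝ n x < inner ℝ n y := by
    have e1 : θ * inner ℝ n (y - p) = -(1 - θ) * inner ℝ n w := by
      rw [hw, ← hθ]
      simp only [inner_sub_right, inner_add_right, inner_smul_right]
      ring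
    have e2 : 0 ≤ inner ℝ n (y - p) := by
      have : 0 ≤ θ * inner ℝ n (y - p) := by
        rw [e1]
        nlinarith
      exact nonneg_of_mul_nonneg_right this hθpos
    have e3 : inner ℝ n y - inner ℝ n x = inner ℝ n (y - p) - t1 * inner ℝ n w + ‖n‖ ^ 2 := by
      have e4 : y - x = (y - p) - t1 • w + n := by
        rw [hn, hc]
        abel
      rw [← inner_sub_right, e4, inner_add_right, inner_sub_right, inner_smul_right,
        real_inner_self_eq_norm_sq]
    have e5 : 0 < ‖n‖ ^ 2 := by rw [hnε]; positivity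
    nlinarith
  -- nothing visible from `x` in `E` is above `x`
  have hvis : ∀ u, segment ℝ x u ⊆ E → inner ℝ n u ≤ inner ℝ n x := by
    intro u hu
    by_contra hcon
    push Not at hcon
    have h1 : 0 < inner ℝ (c - x) (u - x) := by
      rw [inner_sub_right]
      rw [hn] at hcon
      linarith
    obtain ⟨p', hp', hd⟩ := enter_ball h1
    have := hfar p' (hu hp')
    rw [hxc'] at hd
    linarith
  have hcont : Continuous fun z : V => (inner ℝ n z : ℝ) := by fun_prop
  rcases hq x hx with ⟨r, hr, hconv⟩ | hcl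
  · -- `x` is a local maximum
    obtain ⟨v, hv, hvmax⟩ := hE.exists_isMaxOn hEne hcont.continuousOn
    have hvy : inner ℝ n y ≤ inner ℝ n v := by
      by_contra hcon
      push Not at hcon
      obtain ⟨z, hz, hz'⟩ := exists_above hy n _ hcon
      exact absurd (hvmax hz) (not_le.2 hz')
    have hmt := mountain E hE hconn (fun z => inner ℝ n z) hcont (inner ℝ n y) ?_ x v hx hv hvy
      ⟨r, hr, fun u hu hux => hvis u ?_⟩
    · exact absurd hmt (not_le.2 hyx)
    · -- local structure
      intro x' hx' μ hμ hμx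
      rcases hq x' hx' with ⟨r', hr', hconv'⟩ | hcl'
      · refine ⟨r', hr', ?_, ?_⟩
        · intro u hu hux v' hv' hvx hau hav
          refine ⟨segment ℝ u v', ?_, seg_compact u v', (convex_segment u v').isPreconnected,
            left_mem_segment ℝ u v', right_mem_segment ℝ u v', seg_above n hau hav⟩
          exact (hconv'.segment_subset ⟨hux, hu⟩ ⟨hvx, hv'⟩).trans inter_subset_right
        · rintro ⟨v', hv', hvx, hav⟩ u hu hux hau ε' hε'
          obtain ⟨p', hp', hd, ha⟩ := above_near n hau hav hε'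
          exact ⟨p', ((hconv'.segment_subset ⟨hux, hu⟩ ⟨hvx, hv'⟩).trans inter_subset_right) hp',
            hd, ha⟩
      · obtain ⟨z, ⟨hzE, r', hr', hz⟩, haz⟩ := exists_above hcl' n μ hμ
        refine ⟨r', hr', ?_, ?_⟩
        · intro u hu hux v' hv' hvx hau hav
          refine ⟨segment ℝ z u ∪ segment ℝ z v', union_subset (hz u hu hux) (hz v' hv' hvx),
            (seg_compact _ _).union (seg_compact _ _), ?_,
            Or.inl (right_mem_segment ℝ z u), Or.inr (right_mem_segment ℝ z v'), ?_⟩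
          · exact (convex_segment z u).isPreconnected.union z (left_mem_segment ℝ z u)
              (left_mem_segment ℝ z v') (convex_segment z v').isPreconnected
          · rintro k (hk | hk)
            · exact seg_above n haz hau k hk
            · exact seg_above n haz hav k hk
        · rintro - u hu hux hau ε' hε'
          obtain ⟨p', hp', hd, ha⟩ := above_near n hau haz hε'
          rw [segment_symm] at hp'
          exact ⟨p', hz u hu hux hp', hd, ha⟩
    · exact (hconv.segment_subset ⟨mem_ball_self hr, hx⟩ ⟨hux, hu⟩).trans inter_subset_right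
  · obtain ⟨z, ⟨hzE, r', hr', hz⟩, haz⟩ := exists_above hcl n _ hyx
    have h1 := hvis z (by
      rw [segment_symm]
      exact hz x hx (by simpa using hr'))
    linarith

end geom

end Pool.Agent.K3h12.LNC
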